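import Pool.Agent.U469.RT.Stm

/-!
Project RT, package LIA: convergence of the truncated kernels.
-/

set_option autoImplicit false

namespace Pool.Agent.U608.RT.LIA

open Pool.Agent.R248.Ritt Pool.Agent.U469.RT Finset Filter Topology

variable {μ : ℤ → ℝ} (h0 : ∀ k, 0 ≤ μ k) (h1 : HasSum μ 1) (hs : ∀ k, μ (-k) = μ k)
  (ha : ∀ n : ℕ, μ (n + 1) ≤ μ n)

include ha in
lemma pow_nonneg' (R n : ℕ) (k : ℤ) : 0 ≤ (mR μ R ^ n).coeff k := by
  induction n generalizing k with
  | zero =>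
    rw [pow_zero, coeff_one]
    split_ifs <;> norm_num
  | succ n ih =>
    rw [pow_succ', coeff_mul]
    exact tsum_nonneg fun j => mul_nonneg (coeff_mR_nonneg ha R j) (ih _)

include h0 h1 hs ha in
lemma cvPow_nonneg (n : ℕ) (k : ℤ) : 0 ≤ cvPow μ n k :=
  ge_of_tendsto' (tendsto_coeff_pow h0 h1 hs ha n k) fun R => pow_nonneg' ha R n k

include h0 h1 hs ha in
lemma cvPow_sum_le (n : ℕ) (K : Finset ℤ) : ∑ k ∈ K, cvPow μ n k ≤ 1 := by
  have h : Tendsto (fun R : ℕ => ∑ k ∈ K, (mR μ R ^ n).coeff k) atTop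
      (𝓝 (∑ k ∈ K, cvPow μ n k)) :=
    tendsto_finsetSum _ fun k _ => tendsto_coeff_pow h0 h1 hs ha n k
  refine le_of_tendsto' h fun R => ?_
  calc ∑ k ∈ K, (mR μ R ^ n).coeff k ≤ ∑ k ∈ K, |(mR μ R ^ n).coeff k| :=
        sum_le_sum fun _ _ => le_abs_self _
    _ ≤ N1 (mR μ R ^ n) := (summ _).sum_le_tsum _ fun _ _ => abs_nonneg _
    _ ≤ 1 := N1_mR_pow_le h0 h1 hs ha R n

include h0 h1 hs ha in
lemma cvPow_summable (n : ℕ) : Summable (cvPow μ n) :=
  summable_of_sum_le (cvPow_nonneg h0 h1 hs ha n) (cvPow_sum_le h0 h1 hs ha n)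

include h0 h1 hs ha in
lemma cvPow_le_one (n : ℕ) (k : ℤ) : cvPow μ n k ≤ 1 := by
  simpa using cvPow_sum_le h0 h1 hs ha n {k}

include h0 h1 hs ha in
lemma pow_le_cvPow (R n : ℕ) (k : ℤ) : (mR μ R ^ n).coeff k ≤ cvPow μ n k := by
  induction n generalizing k with
  | zero => rw [pow_zero, coeff_one]; exact le_rfl
  | succ n ih =>
    rw [pow_succ', coeff_mul]
    have hr : Summable fun j => μ j * cvPow μ n (k - j) :=
      Summable.of_nonneg_of_le
        (fun j => mul_nonneg (h0 j) (cvPow_nonneg h0 h1 hs ha n _))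
        (fun j => mul_le_of_le_one_right (h0 j) (cvPow_le_one h0 h1 hs ha n _)) h1.summable
    have hle : ∀ j, (mR μ R).coeff j * (mR μ R ^ n).coeff (k - j) ≤ μ j * cvPow μ n (k - j) :=
      fun j => mul_le_mul (coeff_mR_le h0 hs R j) (ih _) (pow_nonneg' ha R n _) (h0 j)
    have hl : Summable fun j => (mR μ R).coeff j * (mR μ R ^ n).coeff (k - j) :=
      Summable.of_nonneg_of_le
        (fun j => mul_nonneg (coeff_mR_nonneg ha R j) (pow_nonneg' ha R n _)) hle hr
    exact hl.tsum_le_tsum hle hr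

lemma coeff_b (R : ℕ) (k : ℤ) : (sR μ R • (1 : A) - mR μ R).coeff k =
    sR μ R * (if k = 0 then 1 else 0) - (mR μ R).coeff k := by
  rw [AddMonoidAlgebra.coeff_sub, Finsupp.sub_apply, AddMonoidAlgebra.coeff_smul_apply,
    smul_eq_mul, coeff_one]

include h0 h1 hs ha in
lemma tendsto_b (k : ℤ) : Tendsto (fun R : ℕ => (sR μ R • (1 : A) - mR μ R).coeff k) atTop
    (𝓝 (dm μ k)) := by
  simp_rw [coeff_b]
  have := ((tendsto_sR h0 h1 hs ha).mul_const (if k = 0 then (1:ℝ) else 0)).sub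
    (tendsto_coeff_mR h1 hs k)
  rwa [one_mul] at this

include h0 h1 hs ha in
lemma N1_b (R : ℕ) : N1 (sR μ R • (1 : A) - mR μ R) ≤ 2 := by
  rw [sub_eq_add_neg]
  refine (N1_add_le _ _).trans ?_
  rw [N1_smul, N1_neg, N1_one, mul_one, abs_of_nonneg (sR_nonneg ha R)]
  linarith [sR_le_one h0 h1 hs R, N1_mR_le ha R]

include h0 h1 hs ha in
lemma N1_b_pow (R m : ℕ) : N1 ((sR μ R • (1 : A) - mR μ R) ^ m) ≤ 2 ^ m := by
  induction m with
  | zero => rw [pow_zero, N1_one, pow_zero]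
  | succ m ih =>
    rw [pow_succ, pow_succ]
    exact (N1_mul_le _ _).trans (mul_le_mul ih (N1_b h0 h1 hs ha R) (N1_nonneg _) (by positivity))

include h0 h1 hs ha in
lemma abs_b_le (R : ℕ) (k : ℤ) : |(sR μ R • (1 : A) - mR μ R).coeff k| ≤
    (if k = 0 then 1 else 0) + μ k := by
  rw [coeff_b]
  refine (abs_sub _ _).trans ?_
  have e1 : |(mR μ R).coeff k| ≤ μ k := by
    rw [abs_of_nonneg (coeff_mR_nonneg ha R k)]
    exact coeff_mR_le h0 hs R k
  have e2 : |sR μ R * (if k = 0 then (1:ℝ) else 0)| ≤ (if k = 0 then (1:ℝ) else 0) := by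
    split_ifs
    · rw [mul_one, abs_of_nonneg (sR_nonneg ha R)]
      exact sR_le_one h0 h1 hs R
    · simp
  exact add_le_add e2 e1

lemma summable_delta : Summable fun k : ℤ => if k = 0 then (1:ℝ) else 0 :=
  summable_of_ne_finset_zero (s := {0}) fun b hb => by
    rw [if_neg (by simpa using hb)]

include h0 h1 hs ha in
lemma tendsto_b_pow (m : ℕ) (k : ℤ) :
    Tendsto (fun R : ℕ => ((sR μ R • (1 : A) - mR μ R) ^ m).coeff k) atTop
      (𝓝 (cvPow (dm μ) m k)) := by
  induction m generalizing k with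
  | zero =>
    simp only [pow_zero, coeff_one, cvPow]
    exact tendsto_const_nhds
  | succ m ih =>
    simp_rw [pow_succ', coeff_mul]
    refine tendsto_tsum_of_dominated_convergence
      (bound := fun j => ((if j = 0 then 1 else 0) + μ j) * 2 ^ m)
      ((summable_delta.add h1.summable).mul_right _) ?_ ?_
    · intro j
      exact (tendsto_b h0 h1 hs ha j).mul (ih (k - j))
    · refine Eventually.of_forall fun R j => ?_
      rw [Real.norm_eq_abs, abs_mul]
      have e1 := abs_b_le h0 h1 hs ha R j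
      refine mul_le_mul e1 ?_ (abs_nonneg _) ((abs_nonneg _).trans e1)
      exact (abs_coeff_le _ _).trans (N1_b_pow h0 h1 hs ha R m)

theorem t_LIA : S_LIA := by
  intro μ h0 h1 hs ha n m k
  simp_rw [mul_comm ((sR μ _ • (1 : A) - mR μ _) ^ m), coeff_mul]
  refine tendsto_tsum_of_dominated_convergence (bound := fun j => cvPow μ n j * 2 ^ m)
    ((cvPow_summable h0 h1 hs ha n).mul_right _) ?_ ?_
  · intro j
    exact (tendsto_coeff_pow h0 h1 hs ha n j).mul (tendsto_b_pow h0 h1 hs ha m (k - j))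
  · refine Eventually.of_forall fun R j => ?_
    rw [Real.norm_eq_abs, abs_mul, abs_of_nonneg (pow_nonneg' ha R n j)]
    exact mul_le_mul (pow_le_cvPow h0 h1 hs ha R n j)
      ((abs_coeff_le _ _).trans (N1_b_pow h0 h1 hs ha R m)) (abs_nonneg _)
      (cvPow_nonneg h0 h1 hs ha n j)

end Pool.Agent.U608.RT.LIA
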